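import Pool.Agent.H221R3.MD.Stmts

/-! Project MD, task E (asymptotics). -/

set_option autoImplicit false

namespace Pool.Agent.H296R3.MD

open Filter Pool.Agent.H221R3.MD

theorem taskE : TaskE := by
  intro q C R m hq hqC hR h hlim
  have hq1 : (1 : ℝ) < q := by exact_mod_cast (by omega : 1 < q)
  have hq0 : (0 : ℝ) < q := by linarith
  have hC0 : 0 < C := by linarith
  have hlq : 0 < Real.log q := Real.log_pos hq1
  have hδ : 0 < Real.log C - Real.log q := sub_pos.2 (Real.log_lt_log hq0 hqC)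
  set δ := Real.log C - Real.log q with hδd
  obtain ⟨ε, hε0, hε1, hεδ⟩ : ∃ ε : ℝ, 0 < ε ∧ ε ≤ 1 ∧ 2 * ε * Real.log q ≤ δ / 2 := by
    refine ⟨min 1 (δ / (4 * Real.log q)), lt_min one_pos (by positivity), min_le_left _ _, ?_⟩
    have h1 : min 1 (δ / (4 * Real.log q)) ≤ δ / (4 * Real.log q) := min_le_right _ _
    have h2 : 2 * min 1 (δ / (4 * Real.log q)) * Real.log q ≤
        2 * (δ / (4 * Real.log q)) * Real.log q := by
      gcongr
    refine h2.trans (le_of_eq ?_)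
    field_simp
    ring
  have e1 : ∀ᶠ n : ℕ in atTop, (m n : ℝ) * Real.logb (q : ℝ) (n : ℝ) / (n : ℝ) ≤ 2 + ε :=
    hlim.eventually_le_const (by linarith)
  have e2 : ∀ᶠ n : ℕ in atTop, (3 : ℝ) ≤ Real.logb (q : ℝ) (n : ℝ) :=
    ((Real.tendsto_logb_atTop hq1).comp tendsto_natCast_atTop_atTop).eventually_ge_atTop 3
  have e3 : ∀ᶠ n : ℕ in atTop, 2 * R ^ 2 * Real.log (4 * (n : ℝ)) ≤ (n : ℝ) ^ ε / 16 := by
    have h1 := (isLittleO_log_rpow_atTop hε0).def (show (0 : ℝ) < 1 / (128 * R ^ 2) by positivity)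
    have h2 : Tendsto (fun n : ℕ => 4 * (n : ℝ)) atTop atTop :=
      tendsto_natCast_atTop_atTop.const_mul_atTop (by norm_num)
    filter_upwards [h2.eventually h1, eventually_gt_atTop 0] with n hn hn0
    have hn0' : (0 : ℝ) < n := by exact_mod_cast hn0
    have h3 : Real.log (4 * (n : ℝ)) ≤ 1 / (128 * R ^ 2) * (4 * (n : ℝ)) ^ ε := by
      refine (le_abs_self _).trans ?_
      have h4 := hn
      rw [Real.norm_eq_abs, Real.norm_eq_abs, abs_of_pos (Real.rpow_pos_of_pos (by positivity) _)]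
        at h4
      exact h4
    have h5 : (4 * (n : ℝ)) ^ ε ≤ 4 * (n : ℝ) ^ ε := by
      rw [Real.mul_rpow (by norm_num) hn0'.le]
      gcongr
      calc (4 : ℝ) ^ ε ≤ 4 ^ (1 : ℝ) := Real.rpow_le_rpow_of_exponent_le (by norm_num) hε1
        _ = 4 := Real.rpow_one 4
    calc 2 * R ^ 2 * Real.log (4 * (n : ℝ))
        ≤ 2 * R ^ 2 * (1 / (128 * R ^ 2) * (4 * (n : ℝ) ^ ε)) := by
          gcongr
          exact h3.trans (by gcongr)
      _ = (n : ℝ) ^ ε / 16 := by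
          field_simp
          norm_num
  have e4 : ∀ᶠ n : ℕ in atTop, (6 : ℝ) ≤ (n : ℝ) ^ ((1 + ε) / 2) :=
    ((tendsto_rpow_atTop (by positivity : 0 < (1 + ε) / 2)).comp
      tendsto_natCast_atTop_atTop).eventually_ge_atTop 6
  have e5 : ∀ᶠ n : ℕ in atTop, Real.log 2 < (n : ℝ) * (δ / 2) :=
    (tendsto_natCast_atTop_atTop.atTop_mul_const (by positivity : 0 < δ / 2)).eventually_gt_atTop _
  obtain ⟨n, h1, h2, h3, h4, h5, hn0⟩ :=
    (e1.and (e2.and (e3.and (e4.and (e5.and (eventually_gt_atTop 0)))))).exists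
  have hn : (0 : ℝ) < n := by exact_mod_cast hn0
  have hn1 : (1 : ℝ) ≤ n := by exact_mod_cast hn0
  have hl4 : 0 ≤ Real.log (4 * (n : ℝ)) := Real.log_nonneg (by linarith)
  have hlogn : 0 ≤ Real.log (n : ℝ) := Real.log_nonneg hn1
  have hml : (m n : ℝ) * Real.logb (q : ℝ) (n : ℝ) ≤ (2 + ε) * n := by
    rwa [div_le_iff₀ hn] at h1
  have hmn : (m n : ℝ) ≤ n := by
    have : (m n : ℝ) * 3 ≤ (m n : ℝ) * Real.logb (q : ℝ) (n : ℝ) := by gcongr
    nlinarith
  set X := 2 * (n : ℝ) * Real.log (4 * (n : ℝ)) with hX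
  have hX0 : 0 ≤ X := by positivity
  set t := ⌈R * Real.sqrt X⌉₊ with ht
  have ht1 : R * Real.sqrt X ≤ t := Nat.le_ceil _
  have ht2 : (t : ℝ) ≤ R * Real.sqrt X + 1 := (Nat.ceil_lt_add_one (by positivity)).le
  have hcond : 4 * (m n : ℝ) * Real.exp (-((t : ℝ) ^ 2) / (2 * n * R ^ 2)) ≤ 1 := by
    have ht3 : R ^ 2 * X ≤ (t : ℝ) ^ 2 := by
      calc R ^ 2 * X = (R * Real.sqrt X) ^ 2 := by rw [mul_pow, Real.sq_sqrt hX0]
        _ ≤ (t : ℝ) ^ 2 := by gcongr
    have ht4 : -((t : ℝ) ^ 2) / (2 * n * R ^ 2) ≤ -Real.log (4 * (n : ℝ)) := by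
      rw [div_le_iff₀ (by positivity)]
      have : R ^ 2 * X = Real.log (4 * (n : ℝ)) * (2 * n * R ^ 2) := by rw [hX]; ring
      linarith
    have ht5 : Real.exp (-((t : ℝ) ^ 2) / (2 * n * R ^ 2)) ≤ (4 * (n : ℝ))⁻¹ := by
      refine (Real.exp_le_exp.2 ht4).trans (le_of_eq ?_)
      rw [Real.exp_neg, Real.exp_log (by positivity)]
    calc 4 * (m n : ℝ) * Real.exp (-((t : ℝ) ^ 2) / (2 * n * R ^ 2))
        ≤ 4 * (n : ℝ) * (4 * (n : ℝ))⁻¹ := by gcongr
      _ = 1 := mul_inv_cancel₀ (by positivity)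
  have hmain := h n hn0 t hcond
  -- bound for `2 t + 1`
  set Y := (n : ℝ) ^ ((1 + ε) / 2) with hY
  have hY0 : 0 < Y := Real.rpow_pos_of_pos hn _
  have hYsq : Y ^ 2 = (n : ℝ) * (n : ℝ) ^ ε := by
    rw [hY, ← Real.rpow_natCast, ← Real.rpow_mul hn.le]
    have : (1 + ε) / 2 * ((2 : ℕ) : ℝ) = 1 + ε := by push_cast; ring
    rw [this, Real.rpow_add hn, Real.rpow_one]
  have hRX : R * Real.sqrt X ≤ Y / 4 := by
    rw [← pow_le_pow_iff_left₀ (by positivity) (by positivity) two_ne_zero, mul_pow,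
      Real.sq_sqrt hX0, div_pow, hYsq]
    have : R ^ 2 * X = (n : ℝ) * (2 * R ^ 2 * Real.log (4 * (n : ℝ))) := by rw [hX]; ring
    rw [this]
    calc (n : ℝ) * (2 * R ^ 2 * Real.log (4 * (n : ℝ))) ≤ (n : ℝ) * ((n : ℝ) ^ ε / 16) := by
          gcongr
      _ = (n : ℝ) * (n : ℝ) ^ ε / 4 ^ 2 := by ring
  have h2t : 2 * (t : ℝ) + 1 ≤ Y := by linarith
  have hlt : Real.log (2 * (t : ℝ) + 1) ≤ (1 + ε) / 2 * Real.log n := by
    rw [← Real.log_rpow hn]
    exact Real.log_le_log (by positivity) h2t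
  have hlog := Real.log_le_log (by positivity) hmain
  rw [Real.log_pow, Real.log_mul (by norm_num) (by positivity), Real.log_pow] at hlog
  have hmlog : (m n : ℝ) * Real.log n ≤ (2 + ε) * n * Real.log q := by
    have : Real.logb (q : ℝ) (n : ℝ) * Real.log q = Real.log n := by
      rw [Real.logb, div_mul_cancel₀ _ hlq.ne']
    calc (m n : ℝ) * Real.log n = (m n : ℝ) * Real.logb (q : ℝ) (n : ℝ) * Real.log q := by
          rw [mul_assoc, this]
      _ ≤ (2 + ε) * n * Real.log q := by gcongr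
  have hfin : (n : ℝ) * Real.log C ≤ Real.log 2 + (1 + ε) / 2 * ((2 + ε) * n * Real.log q) := by
    calc (n : ℝ) * Real.log C ≤ Real.log 2 + (m n : ℝ) * Real.log (2 * (t : ℝ) + 1) := hlog
      _ ≤ Real.log 2 + (m n : ℝ) * ((1 + ε) / 2 * Real.log n) := by gcongr
      _ = Real.log 2 + (1 + ε) / 2 * ((m n : ℝ) * Real.log n) := by ring
      _ ≤ _ := by gcongr
  have hcoef : (1 + ε) / 2 * ((2 + ε) * n * Real.log q) ≤ (n : ℝ) * (Real.log q + δ / 2) := by
    have h6 : (1 + ε) / 2 * (2 + ε) ≤ 1 + 2 * ε := by nlinarith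
    calc (1 + ε) / 2 * ((2 + ε) * n * Real.log q)
        = ((1 + ε) / 2 * (2 + ε)) * (n * Real.log q) := by ring
      _ ≤ (1 + 2 * ε) * (n * Real.log q) := by gcongr
      _ = n * (Real.log q + 2 * ε * Real.log q) := by ring
      _ ≤ (n : ℝ) * (Real.log q + δ / 2) := by gcongr
  have hCq : Real.log C = Real.log q + δ := by rw [hδd]; ring
  rw [hCq] at hfin
  nlinarith

end Pool.Agent.H296R3.MD
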